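import Pool.Agent.Work.MP_36752c_an.Main

/-!
# The order of the volume of the dual-type `L_1` ball on the hyperbolic layer, `d ≥ 3`

`V_n` is of order `(2^n n^(d-2))^(-1/2)` for every fixed `d ≥ 3`.

Idea of the lower bound.  Put `r = (2^n (n+1)^(d-2))^(-1/2)`.  For `a` in the cube `[-1,1]^N` let
`F_l` be the part, at level `l` of the first variable, of the trigonometric polynomial with
coefficients `r a`; at every point `∑ |.|^2` over one level is at most `1`.  The Riesz-type product
of the factors `1 + ε arctan(F_l)` over the levels of one residue class modulo a large number is a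
nonnegative function of integral close to one, so after a linear correction it lies in the unit
ball of `L_1`.  A sign-flip (Efron-Stein) argument together with a counting lemma for
`ΔQ_n ∩ (w + ΔQ_n)` shows that on average over `a` the map from `a` to its coefficients on the
layer is, up to a factor, close to the identity in the Hilbert-Schmidt sense, and a determinant bound
turns this into a lower bound for the volume of the image.

Idea of the upper bound.  Every point of the body is, up to a factor, an average of `±` columns of
characters; the greedy (Maurey) argument with `K` of order `N/n` terms, and rounding of the points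
of the torus to a grid, gives a covering by `exp(C N)` Euclidean balls of radius of order `n^(1/2)`.
-/

namespace Pool.Agent.Results.MP_36752c_an.VolumeOrder

open HypLayer

/-- For every fixed `d ≥ 3` there are positive constants `c`, `C` with
`c φ(n) ≤ V_n ≤ C φ(n)` for all `n ≥ 1`, where `φ(n) = (2^n n^(d-2))^(-1/2)`. -/
theorem result (d : ℕ) (hd : 3 ≤ d) : ∃ c C : ℝ, 0 < c ∧ 0 < C ∧ ∀ n : ℕ, 1 ≤ n →
    c * ((2 : ℝ) ^ n * (n : ℝ) ^ (d - 2)) ^ (-(1 / 2) : ℝ) ≤ Vn d n ∧
    Vn d n ≤ C * ((2 : ℝ) ^ n * (n : ℝ) ^ (d - 2)) ^ (-(1 / 2) : ℝ) :=
  main d hd

end Pool.Agent.Results.MP_36752c_an.VolumeOrder
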